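import Pool.Agent.Emb.J0
import Pool.Agent.Emb.J1
import Pool.Agent.Emb.J1b
import Pool.Agent.Emb.J2
import Pool.Agent.Emb.J3a
import Pool.Agent.Emb.J3b
import Pool.Agent.Emb.Classes
import Pool.Agent.Emb.J5a
import Pool.Agent.Emb.J5b
import Pool.Agent.Emb.J6a
import Pool.Agent.Emb.J6b
import Pool.Agent.Emb.J6c
import Pool.Agent.Emb.J7
import Pool.Agent.Emb.J8a
import Pool.Agent.Emb.J8b
import Pool.Agent.Emb.J9

set_option autoImplicit false

/-! MP_9e3d76_gt, Q1 for `d = 3`: no flat metric on the torus `T³` is embolically extremal. -/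

namespace Pool.Agent.Results.MP_9e3d76_gt.FlatNotExtremal

open Pool.Agent.Emb

/-- There is a metric on `T³` with `Vol ≤ (4 √2 - 1/250) Inj³`, whereas `Vol ≥ 4 √2 Inj³` for every
flat metric (with equality for the metric of the face-centred cubic lattice). -/
theorem result :
    (∃ m : Metric, 0 < m.inj ∧ m.vol ≤ (4 * √2 - 1 / 250) * m.inj ^ 3) ∧
    (∀ m : Metric, m.IsFlat → 4 * √2 * m.inj ^ 3 ≤ m.vol) ∧
    (∃ m : Metric, m.IsFlat ∧ 0 < m.inj ∧ m.vol = 4 * √2 * m.inj ^ 3) := by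
  have h2 : (1 : ℝ) / √2 = √2 / 2 := by
    have := Real.mul_self_sqrt (show (0 : ℝ) ≤ 2 by norm_num)
    field_simp
    nlinarith
  have hshort : T_short := j3b j0a j0b (j1 j0a) (j1b j0a) (j2 j0a j0b) j3a
  obtain ⟨F⟩ := j6c (j5b j5a) j6a j6b
  refine ⟨?_, j8b j7, ?_⟩
  · obtain ⟨m, hi, hv⟩ := j8a hshort classes F
    refine ⟨m, ?_, ?_⟩
    · rw [hi]; norm_num
    · rw [hi]
      rw [h2] at hv
      linarith
  · obtain ⟨m, hf, hi, hv⟩ := j9
    refine ⟨m, hf, ?_, ?_⟩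
    · rw [hi]; norm_num
    · rw [hi, hv, h2]
      ring

end Pool.Agent.Results.MP_9e3d76_gt.FlatNotExtremal
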